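import Pool.Agent.Q211.CW.Main

/-!
# The determinant argument
-/

set_option autoImplicit false

open MeasureTheory Filter Topology Matrix ProbabilityTheory

namespace Pool.Agent.Q211.CW

/-- A sum of independent symmetric variables is nonnegative with probability at least one half. -/
theorem half_le {Ω : Type*} [MeasurableSpace Ω] {P : Measure Ω} [IsProbabilityMeasure P]
    {X : ℕ → Ω → ℝ} (hX : ∀ i, Measurable (X i)) (hind : iIndepFun X P)
    (hs : ∀ i, P.map (fun ω => -X i ω) = P.map (X i)) (t : ℕ) :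
    1 / 2 ≤ P.real {ω | 0 ≤ ∑ i ∈ Finset.range t, X i ω} := by
  have hXn : ∀ i, Measurable (fun ω => -X i ω) := fun i => (hX i).neg
  have hind' : iIndepFun (fun i ω => -X i ω) P :=
    hind.comp (fun _ => fun x => -x) fun _ => measurable_neg
  have e1 := (iIndepFun_iff_map_fun_eq_infinitePi_map hX).1 hind
  have e2 := (iIndepFun_iff_map_fun_eq_infinitePi_map hXn).1 hind'
  have e3 : P.map (fun ω i => -X i ω) = P.map (fun ω i => X i ω) := by
    rw [e1, e2]
    congr 1
    funext i
    exact hs i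
  have hms : MeasurableSet {x : ℕ → ℝ | 0 ≤ ∑ i ∈ Finset.range t, x i} := by
    refine measurableSet_le measurable_const ?_
    exact Finset.measurable_sum _ fun i _ => measurable_pi_apply i
  have e4 : P {ω | 0 ≤ ∑ i ∈ Finset.range t, X i ω} =
      P {ω | 0 ≤ ∑ i ∈ Finset.range t, -X i ω} := by
    have h1 : P {ω | 0 ≤ ∑ i ∈ Finset.range t, X i ω} = (P.map (fun ω i => X i ω))
        {x : ℕ → ℝ | 0 ≤ ∑ i ∈ Finset.range t, x i} := by
      rw [Measure.map_apply (measurable_pi_lambda _ hX) hms]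
      rfl
    have h2 : P {ω | 0 ≤ ∑ i ∈ Finset.range t, -X i ω} = (P.map (fun ω i => -X i ω))
        {x : ℕ → ℝ | 0 ≤ ∑ i ∈ Finset.range t, x i} := by
      rw [Measure.map_apply (measurable_pi_lambda _ hXn) hms]
      rfl
    rw [h1, h2, e3]
  have e5 : P.real {ω | 0 ≤ ∑ i ∈ Finset.range t, X i ω} =
      P.real {ω | 0 ≤ ∑ i ∈ Finset.range t, -X i ω} := by
    rw [measureReal_def, measureReal_def, e4]
  have e6 : P.real (Set.univ : Set Ω) ≤ P.real {ω | 0 ≤ ∑ i ∈ Finset.range t, X i ω} +
      P.real {ω | 0 ≤ ∑ i ∈ Finset.range t, -X i ω} := by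
    refine le_trans (measureReal_mono ?_) (measureReal_union_le _ _)
    intro ω _
    simp only [Set.mem_union, Set.mem_ofPred_eq, Finset.sum_neg_distrib]
    rcases le_total 0 (∑ i ∈ Finset.range t, X i ω) with h | h
    · exact Or.inl h
    · exact Or.inr (by linarith)
  rw [← e5] at e6
  simp at e6
  linarith

section

variable {G : Type*} [Group G] [TopologicalSpace G] [IsTopologicalGroup G] [MeasurableSpace G]
  [BorelSpace G] {Ω : Type*} [mΩ : MeasurableSpace Ω] {P : Measure Ω} [IsProbabilityMeasure P]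
  {U : ℕ → Ω → G} (hU : ∀ t, Measurable (U t)) (hind : iIndepFun U P)
  {μ : Measure G} (hlaw : ∀ t, P.map (U t) = μ)
  (hsymm : ∀ A : Set G, MeasurableSet A → μ A⁻¹ = μ A)
  {n : ℕ} {R : G → M n} (hR1 : R 1 = 1) (hRm : ∀ x y, R (x * y) = R x * R y)
  (hRc : Continuous R) [hpr : ∀ t, IsProbabilityMeasure (nuR P U R t)]
  (him : ∀ (u : G) (z : Fin n → ℝ), z ∈ E0 (nuR P U R) → R u *ᵥ z ∈ E0 (nuR P U R))

/-- The restriction of `R x` to an invariant subspace. -/
noncomputable def res (R : G → M n) (E : Submodule ℝ (Fin n → ℝ))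
    (h : ∀ (u : G) (z : Fin n → ℝ), z ∈ E → R u *ᵥ z ∈ E) (x : G) : E →ₗ[ℝ] E :=
  (Matrix.mulVecLin (R x)).restrict (h x)

omit [TopologicalSpace G] [IsTopologicalGroup G] [MeasurableSpace G] [BorelSpace G] in
theorem res_mul (hRm : ∀ x y, R (x * y) = R x * R y) (E : Submodule ℝ (Fin n → ℝ))
    (h : ∀ (u : G) (z : Fin n → ℝ), z ∈ E → R u *ᵥ z ∈ E) (x y : G) :
    res R E h (x * y) = res R E h x ∘ₗ res R E h y := by
  ext z
  apply congrFun
  show R (x * y) *ᵥ (z : Fin n → ℝ) = R x *ᵥ (R y *ᵥ (z : Fin n → ℝ))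
  rw [hRm, Matrix.mulVec_mulVec]

omit [TopologicalSpace G] [IsTopologicalGroup G] [MeasurableSpace G] [BorelSpace G] in
theorem res_one (hR1 : R 1 = 1) (E : Submodule ℝ (Fin n → ℝ))
    (h : ∀ (u : G) (z : Fin n → ℝ), z ∈ E → R u *ᵥ z ∈ E) :
    res R E h 1 = LinearMap.id := by
  ext z
  apply congrFun
  show R 1 *ᵥ (z : Fin n → ℝ) = z
  rw [hR1, Matrix.one_mulVec]

include hU hind hlaw hsymm hR1 hRm hRc him in
theorem E0_eq_bot : E0 (nuR P U R) = ⊥ := by
  by_contra hne
  set E := E0 (nuR P U R) with hE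
  have hfr : 0 < Module.finrank ℝ E := by
    rw [Module.finrank_pos_iff]
    exact Submodule.nontrivial_iff_ne_bot.2 hne
  set d := Module.finrank ℝ E with hd
  let b : Module.Basis (Fin d) ℝ E := Module.finBasis ℝ E
  have hnonempty : Nonempty (Fin d) := ⟨⟨0, hfr⟩⟩
  let D : G → ℝ := fun x => LinearMap.det (res R E him x)
  have hD : ∀ x, D x = b.det (fun j => res R E him x (b j)) := by
    intro x
    have h1 := Module.Basis.det_comp b (res R E him x) b
    rw [Module.Basis.det_self, mul_one] at h1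
    exact h1.symm
  have hDm : ∀ x y, D (x * y) = D x * D y := by
    intro x y
    show LinearMap.det (res R E him (x * y)) = _
    rw [res_mul hRm, LinearMap.det_comp]
  have hD1 : D 1 = 1 := by
    show LinearMap.det (res R E him 1) = 1
    rw [res_one hR1, LinearMap.det_id]
  have hD0 : ∀ x, D x ≠ 0 := by
    intro x h
    have h1 := hDm x x⁻¹
    rw [mul_inv_cancel, hD1, h, zero_mul] at h1
    exact one_ne_zero h1
  have hF : Continuous (fun v : Fin d → E => b.det v) := by
    have : (fun v : Fin d → E => b.det v) = fun v => Matrix.det (b.toMatrix v) := by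
      funext v
      exact b.det_apply v
    rw [this]
    refine Continuous.matrix_det (continuous_matrix fun i j => ?_)
    have h2 : (fun v : Fin d → E => b.toMatrix v i j) = fun v => b.coord i (v j) := rfl
    rw [h2]
    exact (LinearMap.continuous_of_finiteDimensional (b.coord i)).comp (continuous_apply j)
  have hvc : Continuous (fun x : G => fun j => res R E him x (b j)) := by
    refine continuous_pi fun j => ?_
    refine Continuous.subtype_mk (f := fun x => R x *ᵥ (b j : Fin n → ℝ)) ?_ _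
    exact Continuous.matrix_mulVec hRc continuous_const
  have hDc : Continuous D := by
    have : D = fun x => b.det (fun j => res R E him x (b j)) := funext hD
    rw [this]
    exact hF.comp hvc
  -- smallness of the determinant
  obtain ⟨δ, hδ, hδ1⟩ : ∃ δ > 0, ∀ v : Fin d → E, ‖v‖ < δ → |b.det v| < 1 := by
    have h0 : b.det (0 : Fin d → E) = 0 := by
      have := (b.det).map_zero
      exact this
    have h1 := (Metric.continuous_iff.1 hF) 0 1 one_pos
    obtain ⟨δ, hδ, h2⟩ := h1
    refine ⟨δ, hδ, fun v hv => ?_⟩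
    have h3 := h2 v (by rwa [dist_zero_right])
    rwa [h0, dist_zero_right, Real.norm_eq_abs] at h3
  set δ' := min δ (1 / 2) with hδ'
  have hδ'0 : 0 < δ' := lt_min hδ (by norm_num)
  have hδ'1 : δ' < 1 := lt_of_le_of_lt (min_le_right _ _) (by norm_num)
  -- the symmetric sums
  let ξ : G → ℝ := fun x => Real.log |D x|
  have hξm : Measurable ξ := Real.measurable_log.comp (hDc.measurable.abs)
  have hξadd : ∀ x y, ξ (x * y) = ξ x + ξ y := by
    intro x y
    show Real.log |D (x * y)| = _
    rw [hDm, abs_mul, Real.log_mul (abs_ne_zero.2 (hD0 x)) (abs_ne_zero.2 (hD0 y))]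
  have hξ1 : ξ 1 = 0 := by
    show Real.log |D 1| = 0
    rw [hD1]
    simp
  have hξinv : ∀ x, ξ x⁻¹ = -ξ x := by
    intro x
    have := hξadd x x⁻¹
    rw [mul_inv_cancel, hξ1] at this
    linarith
  have hξwalk : ∀ (u : ℕ → G) t, ξ (walk u t) = ∑ i ∈ Finset.range t, ξ (u i) := by
    intro u t
    induction t with
    | zero => rw [walk_zero, hξ1]; simp
    | succ t ih => rw [walk_succ, hξadd, ih, Finset.sum_range_succ]
  have hXm : ∀ i, Measurable (fun ω => ξ (U i ω)) := fun i => hξm.comp (hU i)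
  have hXi : iIndepFun (fun i ω => ξ (U i ω)) P := hind.comp (fun _ => ξ) fun _ => hξm
  have hXs : ∀ i, P.map (fun ω => -ξ (U i ω)) = P.map (fun ω => ξ (U i ω)) := by
    intro i
    have h1 : P.map (fun ω => ξ (U i ω)) = μ.map ξ := by
      rw [← hlaw i, Measure.map_map hξm (hU i)]
      rfl
    have h2 : P.map (fun ω => -ξ (U i ω)) = (μ.map (fun u : G => u⁻¹)).map ξ := by
      rw [← hlaw i, Measure.map_map measurable_inv (hU i),
        Measure.map_map hξm (measurable_inv.comp (hU i))]
      congr 1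
      funext ω
      simp only [Function.comp_apply]
      rw [hξinv]
    rw [h1, h2, map_inv' hsymm]
  have hhalf := half_le hXm hXi hXs
  -- the contradiction
  have hlim : Tendsto (fun t => ∑ j, δ'⁻¹ * g (nuR P U R t) (b j : Fin n → ℝ)) atTop (𝓝 0) := by
    have h1 : Tendsto (fun t => ∑ j, δ'⁻¹ * g (nuR P U R t) (b j : Fin n → ℝ)) atTop
        (𝓝 (∑ _j : Fin d, δ'⁻¹ * 0)) := by
      refine tendsto_finsetSum _ fun j _ => ?_
      exact ((mem_E0 _ _).1 (b j).2).const_mul _
    simpa using h1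
  have hbound : ∀ t, P.real {ω | 0 ≤ ∑ i ∈ Finset.range t, ξ (U i ω)} ≤
      ∑ j, δ'⁻¹ * g (nuR P U R t) (b j : Fin n → ℝ) := by
    intro t
    have hsub : {ω | 0 ≤ ∑ i ∈ Finset.range t, ξ (U i ω)} ⊆
        ⋃ j ∈ (Finset.univ : Finset (Fin d)),
          {ω | δ' ≤ tr (R (walk (fun i => U i ω) t) *ᵥ (b j : Fin n → ℝ))} := by
      intro ω hω
      by_contra hcon
      simp only [Set.mem_iUnion, Finset.mem_univ, Set.mem_ofPred_eq, exists_prop, true_and,
        not_exists, not_le] at hcon
      have h1 : ‖(fun j => res R E him (walk (fun i => U i ω) t) (b j))‖ < δ := by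
        rw [pi_norm_lt_iff hδ]
        intro j
        have h2 := hcon j
        unfold tr at h2
        rw [min_lt_iff] at h2
        rcases h2 with h2 | h2
        · linarith
        · exact lt_of_lt_of_le h2 (min_le_left _ _)
      have h2 := hδ1 _ h1
      rw [← hD] at h2
      have h3 : ξ (walk (fun i => U i ω) t) < 0 :=
        Real.log_neg (abs_pos.2 (hD0 _)) h2
      rw [hξwalk] at h3
      exact absurd hω (not_le.2 h3)
    refine (measureReal_mono hsub (measure_ne_top _ _)).trans ((measureReal_biUnion_finset_le _ _).trans ?_)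
    refine Finset.sum_le_sum fun j _ => ?_
    have h4 := mul_meas_ge_le_integral_of_nonneg (μ := P)
      (f := fun ω => tr (R (walk (fun i => U i ω) t) *ᵥ (b j : Fin n → ℝ)))
      (Eventually.of_forall fun ω => tr_nonneg _)
      (integrable_tr P _ ((measurable_mulVec_left _).comp
        (measurable_walk hU hR1 hRm hRc t))) δ'
    rw [← g_nuR hU hR1 hRm hRc] at h4
    rw [inv_mul_eq_div, le_div_iff₀ hδ'0, mul_comm]
    exact h4
  have h5 := ge_of_tendsto' hlim fun t => (hhalf t).trans (hbound t)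
  norm_num at h5

end

/-- The main theorem. -/
theorem const_of_converges {G : Type*} [Group G] [TopologicalSpace G] [IsTopologicalGroup G]
    [MeasurableSpace G] [BorelSpace G] {μ : Measure G}
    (hadapted : ∀ H : Subgroup G, IsClosed (H : Set G) → μ H = 1 → H = ⊤)
    (hsymm : ∀ A : Set G, MeasurableSet A → μ A⁻¹ = μ A)
    {Ω : Type*} [MeasurableSpace Ω] {P : Measure Ω} [IsProbabilityMeasure P]
    {U : ℕ → Ω → G} (hU : ∀ t, Measurable (U t)) (hlaw : ∀ t, P.map (U t) = μ)
    (hind : iIndepFun U P) {f : G → ℝ} (hf : Continuous f)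
    (hconv : ∀ x : G, ∀ᵐ ω ∂P, ∃ l : ℝ,
      Tendsto (fun t => f (x * walk (fun i => U i ω) t)) atTop (𝓝 l))
    (hfin : FiniteDimensional ℝ
      (Submodule.span ℝ (Set.range fun γ : G => fun x : G => f (γ⁻¹ * x)))) :
    ∀ x y, f x = f y := by
  set V := Submodule.span ℝ (Set.range fun γ : G => fun x : G => f (γ⁻¹ * x)) with hVdef
  have hV : ∀ x : G, ∀ v ∈ V, trans x v ∈ V := by
    intro x v hv
    induction hv using Submodule.span_induction with
    | mem v hv =>
      obtain ⟨γ, rfl⟩ := hv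
      refine Submodule.subset_span ⟨x⁻¹ * γ, ?_⟩
      funext g
      show f ((x⁻¹ * γ)⁻¹ * g) = f (γ⁻¹ * (x * g))
      rw [_root_.mul_inv_rev, inv_inv, mul_assoc]
    | zero => rw [map_zero]; exact Submodule.zero_mem _
    | add a c _ _ ha hc => rw [map_add]; exact Submodule.add_mem _ ha hc
    | smul r a _ ha => rw [map_smul]; exact Submodule.smul_mem _ _ ha
  have hc : ∀ v ∈ V, Continuous v := by
    intro v hv
    induction hv using Submodule.span_induction with
    | mem v hv =>
      obtain ⟨γ, rfl⟩ := hv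
      exact hf.comp (continuous_const.mul continuous_id)
    | zero => exact continuous_const
    | add a c _ _ ha hc => exact ha.add hc
    | smul r a _ ha => exact ha.const_smul r
  have hcv : ∀ v ∈ V, ∀ᵐ ω ∂P, ∃ l : ℝ,
      Tendsto (fun t => v (walk (fun i => U i ω) t)) atTop (𝓝 l) := by
    intro v hv
    induction hv using Submodule.span_induction with
    | mem v hv =>
      obtain ⟨γ, rfl⟩ := hv
      exact hconv γ⁻¹
    | zero => exact Eventually.of_forall fun ω => ⟨0, tendsto_const_nhds⟩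
    | add a c _ _ ha hc =>
      filter_upwards [ha, hc] with ω h1 h2
      obtain ⟨l1, h1⟩ := h1
      obtain ⟨l2, h2⟩ := h2
      exact ⟨l1 + l2, h1.add h2⟩
    | smul r a _ ha =>
      filter_upwards [ha] with ω h1
      obtain ⟨l1, h1⟩ := h1
      exact ⟨r • l1, h1.const_smul r⟩
  let b : Module.Basis (Fin (Module.finrank ℝ V)) ℝ V := Module.finBasis ℝ V
  have hR1 := rep_one V hV b
  have hRm := rep_mul V hV b
  have hRc := continuous_rep V hV b hc
  have hec := continuous_ev V b hc
  have hRe := rep_ev V hV b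
  have hpr : ∀ t, IsProbabilityMeasure (nuR P U (rep V hV b) t) :=
    fun t => prob_nuR hU hR1 hRm hRc t
  have hconv2 : ∀ᵐ ω ∂P, ∃ l, Tendsto (fun t => ev V b (walk (fun i => U i ω) t)) atTop (𝓝 l) := by
    have h1 : ∀ᵐ ω ∂P, ∀ i, ∃ l : ℝ,
        Tendsto (fun t => (b i : G → ℝ) (walk (fun i => U i ω) t)) atTop (𝓝 l) := by
      rw [ae_all_iff]
      exact fun i => hcv _ (b i).2
    filter_upwards [h1] with ω hω
    choose l hl using hω
    exact ⟨l, tendsto_pi_nhds.2 hl⟩
  have him := image_mem (P := P) hU hind hlaw hadapted hsymm hR1 hRm hRc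
  have hbot := E0_eq_bot (P := P) hU hind hlaw hsymm hR1 hRm hRc him
  have hdiff := diff_mem (P := P) hU hind hlaw hadapted hsymm hR1 hRm hRc hec hRe hconv2
  have hconst : ∀ u, ev V b u = ev V b 1 := by
    intro u
    have h1 := hdiff u
    rw [hbot, Submodule.mem_bot, sub_eq_zero] at h1
    exact h1
  have hfV : f ∈ V := Submodule.subset_span ⟨1, by funext x; simp⟩
  have hf1 : ∀ u, f u = f 1 := by
    intro u
    have h1 := b.sum_repr ⟨f, hfV⟩
    have h2 : ∀ x, f x = ∑ i, b.repr ⟨f, hfV⟩ i * ev V b x i := by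
      intro x
      have h3 := congrArg (fun v : V => (v : G → ℝ) x) h1
      simp only at h3
      rw [← h3, Submodule.coe_sum, Finset.sum_apply]
      rfl
    rw [h2 u, h2 1, hconst u]
  intro x y
  rw [hf1 x, hf1 y]

end Pool.Agent.Q211.CW
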