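import Pool.Agent.Q211.CW.Walk

/-!
# Functions converging along random walks with a finite dimensional orbit span are constant
-/

set_option autoImplicit false

open MeasureTheory Filter Topology Matrix ProbabilityTheory

namespace Pool.Agent.Q211.CW

section

variable {G : Type*} [Group G] [TopologicalSpace G] [IsTopologicalGroup G] [MeasurableSpace G]
  [BorelSpace G] {Ω : Type*} [mΩ : MeasurableSpace Ω] {P : Measure Ω} [IsProbabilityMeasure P]
  {U : ℕ → Ω → G} (hU : ∀ t, Measurable (U t)) (hind : iIndepFun U P)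
  {μ : Measure G} (hlaw : ∀ t, P.map (U t) = μ)
  (hadapted : ∀ H : Subgroup G, IsClosed (H : Set G) → μ H = 1 → H = ⊤)
  (hsymm : ∀ A : Set G, MeasurableSet A → μ A⁻¹ = μ A)
  {n : ℕ} {R : G → M n} (hR1 : R 1 = 1) (hRm : ∀ x y, R (x * y) = R x * R y)
  (hRc : Continuous R) [hpr : ∀ t, IsProbabilityMeasure (nuR P U R t)]

include hsymm in
theorem map_inv' : μ.map (fun u : G => u⁻¹) = μ := by
  ext A hA
  rw [Measure.map_apply measurable_inv hA]
  exact hsymm A hA

include hlaw hU in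
theorem prob_mu : IsProbabilityMeasure μ := by
  rw [← hlaw 0]
  exact Measure.isProbabilityMeasure_map (hU 0).aemeasurable

include hsymm in
theorem ae_inv {p : G → Prop} (h : ∀ᵐ u ∂μ, p u) : ∀ᵐ u ∂μ, p u⁻¹ := by
  have h2 := h
  rw [← map_inv' hsymm] at h2
  exact ae_of_ae_map measurable_inv.aemeasurable h2

include hadapted in
theorem eq_top_of_ae [IsProbabilityMeasure μ] (H : Subgroup G) (hc : IsClosed (H : Set G))
    (h : ∀ᵐ u ∂μ, u ∈ H) : H = ⊤ := by
  refine hadapted H hc ?_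
  exact (mem_ae_iff_prob_eq_one hc.measurableSet).1 h

include hRc in
theorem measurable_R_mulVec (z : Fin n → ℝ) : Measurable fun u => R u *ᵥ z :=
  (Continuous.matrix_mulVec hRc continuous_const).measurable

include hU hind hlaw hR1 hRm hRc in
theorem ae_image_mem (z : Fin n → ℝ) (hz : z ∈ E0 (nuR P U R)) :
    ∀ᵐ u ∂μ, R u *ᵥ z ∈ E0 (nuR P U R) := by
  have hμ := prob_mu hU hlaw
  have hm := measurable_R_mulVec hRc z
  have hp : IsProbabilityMeasure (μ.map fun u => R u *ᵥ z) :=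
    Measure.isProbabilityMeasure_map hm.aemeasurable
  refine ae_of_ae_map hm.aemeasurable (ae_mem_E0 (nuR P U R) _ ?_)
  have h1 : ∀ t, ∫ z', g (nuR P U R t) z' ∂(μ.map fun u => R u *ᵥ z) =
      g (nuR P U R (t + 1)) z := by
    intro t
    rw [g_fubini hU hind hR1 hRm hRc hlaw _ hm t, g_nuR hU hR1 hRm hRc]
    refine integral_congr_ae (Eventually.of_forall fun ω => ?_)
    simp only
    rw [walk_succ, hRm, Matrix.mulVec_mulVec]
  simp_rw [h1]
  exact (tendsto_add_atTop_iff_nat 1).2 ((mem_E0 _ z).1 hz)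

include hU hind hlaw hR1 hRm hRc in
theorem ae_image_mem_all :
    ∀ᵐ u ∂μ, ∀ z ∈ E0 (nuR P U R), R u *ᵥ z ∈ E0 (nuR P U R) := by
  have b := Module.finBasis ℝ (E0 (nuR P U R))
  have h : ∀ᵐ u ∂μ, ∀ j, R u *ᵥ (b j : Fin n → ℝ) ∈ E0 (nuR P U R) := by
    rw [ae_all_iff]
    exact fun j => ae_image_mem hU hind hlaw hR1 hRm hRc _ (b j).2
  filter_upwards [h] with u hu z hz
  have h1 := b.sum_repr ⟨z, hz⟩
  have h2 := congrArg (Subtype.val) h1
  simp only at h2
  rw [← h2, Submodule.coe_sum]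
  have h3 : R u *ᵥ (∑ j, ((b.repr ⟨z, hz⟩ j • b j : E0 (nuR P U R)) : Fin n → ℝ)) =
      ∑ j, b.repr ⟨z, hz⟩ j • (R u *ᵥ (b j : Fin n → ℝ)) := by
    rw [← Matrix.mulVecLin_apply, map_sum]
    refine Finset.sum_congr rfl fun j _ => ?_
    rw [Submodule.coe_smul, map_smul, Matrix.mulVecLin_apply]
  rw [h3]
  exact Submodule.sum_mem _ fun j _ => Submodule.smul_mem _ _ (hu j)

theorem closed_E0 (ν : ℕ → Measure (M n)) [∀ t, IsProbabilityMeasure (ν t)] :
    IsClosed (E0 ν : Set (Fin n → ℝ)) := Submodule.closed_of_finiteDimensional _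

/-- The stabiliser of `E0`. -/
def Stab (R : G → M n) (hR1 : R 1 = 1) (hRm : ∀ x y, R (x * y) = R x * R y)
    (E : Submodule ℝ (Fin n → ℝ)) : Subgroup G where
  carrier := {u | (∀ z ∈ E, R u *ᵥ z ∈ E) ∧ ∀ z ∈ E, R u⁻¹ *ᵥ z ∈ E}
  mul_mem' := by
    rintro x y ⟨hx1, hx2⟩ ⟨hy1, hy2⟩
    refine ⟨fun z hz => ?_, fun z hz => ?_⟩
    · rw [hRm, ← Matrix.mulVec_mulVec]
      exact hx1 _ (hy1 z hz)
    · rw [_root_.mul_inv_rev, hRm, ← Matrix.mulVec_mulVec]
      exact hy2 _ (hx2 z hz)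
  one_mem' := by
    refine ⟨fun z hz => ?_, fun z hz => ?_⟩
    · rw [hR1, Matrix.one_mulVec]
      exact hz
    · rw [inv_one, hR1, Matrix.one_mulVec]
      exact hz
  inv_mem' := by
    rintro x ⟨hx1, hx2⟩
    exact ⟨hx2, by rwa [inv_inv]⟩

include hU hind hlaw hadapted hsymm hR1 hRm hRc in
theorem image_mem (u : G) (z : Fin n → ℝ) (hz : z ∈ E0 (nuR P U R)) :
    R u *ᵥ z ∈ E0 (nuR P U R) := by
  have hμ := prob_mu hU hlaw
  have h1 : Stab R hR1 hRm (E0 (nuR P U R)) = ⊤ := by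
    refine eq_top_of_ae hadapted _ ?_ ?_
    · have h2 : ((Stab R hR1 hRm (E0 (nuR P U R)) : Subgroup G) : Set G) =
          (⋂ z ∈ E0 (nuR P U R), {u | R u *ᵥ z ∈ E0 (nuR P U R)}) ∩
          ⋂ z ∈ E0 (nuR P U R), {u | R u⁻¹ *ᵥ z ∈ E0 (nuR P U R)} := by
        ext u
        simp only [Set.mem_inter_iff, Set.mem_iInter, Set.mem_ofPred_eq]
        rfl
      rw [h2]
      refine IsClosed.inter ?_ ?_
      · refine isClosed_biInter fun z _ => ?_
        exact (closed_E0 _).preimage (Continuous.matrix_mulVec hRc continuous_const)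
      · refine isClosed_biInter fun z _ => ?_
        exact (closed_E0 _).preimage
          (Continuous.matrix_mulVec (hRc.comp continuous_inv) continuous_const)
    · have h2 := ae_image_mem_all (P := P) hU hind hlaw hR1 hRm hRc
      filter_upwards [h2, ae_inv hsymm h2] with u hu1 hu2 using ⟨hu1, hu2⟩
  have h3 : u ∈ Stab R hR1 hRm (E0 (nuR P U R)) := by
    rw [h1]
    trivial
  exact h3.1 z hz

variable {e : G → Fin n → ℝ} (hec : Continuous e) (hRe : ∀ x y, R x *ᵥ e y = e (x * y))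
  (hconv : ∀ᵐ ω ∂P, ∃ l, Tendsto (fun t => e (walk (fun i => U i ω) t)) atTop (𝓝 l))

include hU hind hlaw hR1 hRm hRc hec hRe hconv in
theorem ae_diff_mem : ∀ᵐ u ∂μ, e u - e 1 ∈ E0 (nuR P U R) := by
  have hμ := prob_mu hU hlaw
  have hm : Measurable (fun u => e u - e 1) := hec.measurable.sub measurable_const
  have hp : IsProbabilityMeasure (μ.map fun u => e u - e 1) :=
    Measure.isProbabilityMeasure_map hm.aemeasurable
  refine ae_of_ae_map hm.aemeasurable (ae_mem_E0 (nuR P U R) _ ?_)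
  simp_rw [g_fubini hU hind hR1 hRm hRc hlaw _ hm]
  have hw : ∀ t, Measurable (fun ω => R (walk (fun i => U i ω) t) *ᵥ (e (U t ω) - e 1)) := by
    intro t
    exact (continuous_mulVec.measurable).comp
      ((measurable_walk hU hR1 hRm hRc t).prodMk (hm.comp (hU t)))
  refine tendsto_tr hw ?_
  filter_upwards [hconv] with ω hω
  obtain ⟨l, hl⟩ := hω
  have h1 : ∀ t, R (walk (fun i => U i ω) t) *ᵥ (e (U t ω) - e 1) =
      e (walk (fun i => U i ω) (t + 1)) - e (walk (fun i => U i ω) t) := by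
    intro t
    rw [Matrix.mulVec_sub, hRe, hRe, mul_one, walk_succ]
  simp_rw [h1]
  have h2 := ((tendsto_add_atTop_iff_nat 1).2 hl).sub hl
  rwa [sub_self] at h2

include hU hind hlaw hadapted hsymm hR1 hRm hRc hec hRe hconv in
theorem diff_mem (u : G) : e u - e 1 ∈ E0 (nuR P U R) := by
  have hμ := prob_mu hU hlaw
  have him := image_mem (P := P) hU hind hlaw hadapted hsymm hR1 hRm hRc
  let H : Subgroup G :=
    { carrier := {u | e u - e 1 ∈ E0 (nuR P U R)}
      mul_mem' := by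
        intro x y hx hy
        have h1 : e (x * y) - e 1 = R x *ᵥ (e y - e 1) + (e x - e 1) := by
          rw [Matrix.mulVec_sub, hRe, hRe, mul_one]
          abel
        show e (x * y) - e 1 ∈ E0 (nuR P U R)
        rw [h1]
        exact Submodule.add_mem _ (him x _ hy) hx
      one_mem' := by
        show e 1 - e 1 ∈ E0 (nuR P U R)
        rw [sub_self]
        exact Submodule.zero_mem _
      inv_mem' := by
        intro x hx
        have h1 : e x⁻¹ - e 1 = -(R x⁻¹ *ᵥ (e x - e 1)) := by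
          rw [Matrix.mulVec_sub, hRe, hRe, mul_one, inv_mul_cancel]
          abel
        show e x⁻¹ - e 1 ∈ E0 (nuR P U R)
        rw [h1]
        exact Submodule.neg_mem _ (him x⁻¹ _ hx) }
  have hH : H = ⊤ := by
    refine eq_top_of_ae hadapted H ?_ ?_
    · exact (closed_E0 _).preimage (hec.sub continuous_const)
    · exact ae_diff_mem hU hind hlaw hR1 hRm hRc hec hRe hconv
  have : u ∈ H := by
    rw [hH]
    trivial
  exact this

end

end Pool.Agent.Q211.CW
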