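import Mathlib

/-!
# Vectors sent to zero in probability by a sequence of random matrices
-/

set_option autoImplicit false

open MeasureTheory Filter Topology Matrix

namespace Pool.Agent.Q211.CW

variable {n : ℕ}

/-- Matrices. -/
abbrev M (n : ℕ) := Matrix (Fin n) (Fin n) ℝ

instance : MeasurableSpace (M n) := inferInstanceAs (MeasurableSpace (Fin n → Fin n → ℝ))
instance : BorelSpace (M n) := inferInstanceAs (BorelSpace (Fin n → Fin n → ℝ))
instance : SecondCountableTopology (M n) :=
  inferInstanceAs (SecondCountableTopology (Fin n → Fin n → ℝ))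

/-- Truncated size. -/
noncomputable def tr (v : Fin n → ℝ) : ℝ := min 1 ‖v‖

theorem tr_nonneg (v : Fin n → ℝ) : 0 ≤ tr v := le_min zero_le_one (norm_nonneg _)

theorem tr_le_one (v : Fin n → ℝ) : tr v ≤ 1 := min_le_left _ _

theorem continuous_tr : Continuous (tr : (Fin n → ℝ) → ℝ) := by
  unfold tr
  fun_prop

theorem tr_add (v w : Fin n → ℝ) : tr (v + w) ≤ tr v + tr w := by
  unfold tr
  rcases le_total 1 ‖v‖ with h | h
  · rw [min_eq_left h]
    have : 0 ≤ min 1 ‖w‖ := le_min zero_le_one (norm_nonneg _)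
    have h2 : min 1 ‖v + w‖ ≤ 1 := min_le_left _ _
    linarith
  · rcases le_total 1 ‖w‖ with h' | h'
    · rw [min_eq_left h']
      have : 0 ≤ min 1 ‖v‖ := le_min zero_le_one (norm_nonneg _)
      have h2 : min 1 ‖v + w‖ ≤ 1 := min_le_left _ _
      linarith
    · rw [min_eq_right h, min_eq_right h']
      exact (min_le_right _ _).trans (norm_add_le v w)

theorem tr_smul (c : ℝ) (v : Fin n → ℝ) : tr (c • v) ≤ max 1 |c| * tr v := by
  unfold tr
  rw [norm_smul, Real.norm_eq_abs]
  have h1 : 1 ≤ max 1 |c| := le_max_left _ _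
  have h2 : |c| ≤ max 1 |c| := le_max_right _ _
  rcases le_total 1 ‖v‖ with h | h
  · rw [min_eq_left h]
    exact (min_le_left _ _).trans (by linarith)
  · rw [min_eq_right h]
    exact (min_le_right _ _).trans (mul_le_mul_of_nonneg_right h2 (norm_nonneg _))

/-- Mean truncated size of the image of `z`. -/
noncomputable def g (ν : Measure (M n)) (z : Fin n → ℝ) : ℝ := ∫ m, tr (m *ᵥ z) ∂ν

theorem continuous_mulVec : Continuous (fun p : M n × (Fin n → ℝ) => p.1 *ᵥ p.2) :=
  Continuous.matrix_mulVec continuous_fst continuous_snd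

theorem measurable_tr_mulVec : Measurable (fun p : M n × (Fin n → ℝ) => tr (p.1 *ᵥ p.2)) :=
  (continuous_tr.comp continuous_mulVec).measurable

theorem integrable_tr {α : Type*} [MeasurableSpace α] (ν : Measure α) [IsProbabilityMeasure ν]
    (h : α → Fin n → ℝ) (hh : Measurable h) : Integrable (fun a => tr (h a)) ν := by
  refine Integrable.of_bound ((continuous_tr.measurable.comp hh).aestronglyMeasurable) 1 ?_
  exact Eventually.of_forall fun a => by
    rw [Real.norm_eq_abs, abs_of_nonneg (tr_nonneg _)]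
    exact tr_le_one _

theorem measurable_mulVec_left (z : Fin n → ℝ) : Measurable (fun m : M n => m *ᵥ z) :=
  (Continuous.matrix_mulVec continuous_id continuous_const).measurable

variable (ν : Measure (M n)) [IsProbabilityMeasure ν]

theorem g_nonneg (z : Fin n → ℝ) : 0 ≤ g ν z := integral_nonneg fun _ => tr_nonneg _

theorem g_le_one (z : Fin n → ℝ) : g ν z ≤ 1 := by
  unfold g
  calc ∫ m, tr (m *ᵥ z) ∂ν ≤ ∫ _m : M n, (1 : ℝ) ∂ν :=
        integral_mono (integrable_tr ν _ (measurable_mulVec_left z)) (integrable_const _)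
          fun m => tr_le_one _
    _ = 1 := by simp

theorem g_zero : g ν 0 = 0 := by
  unfold g tr
  simp

theorem g_add (z w : Fin n → ℝ) : g ν (z + w) ≤ g ν z + g ν w := by
  unfold g
  rw [← integral_add (integrable_tr ν _ (measurable_mulVec_left z))
    (integrable_tr ν _ (measurable_mulVec_left w))]
  refine integral_mono (integrable_tr ν _ (measurable_mulVec_left _))
    ((integrable_tr ν _ (measurable_mulVec_left z)).add
      (integrable_tr ν _ (measurable_mulVec_left w))) fun m => ?_
  simp only [Matrix.mulVec_add]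
  exact tr_add _ _

theorem g_smul (c : ℝ) (z : Fin n → ℝ) : g ν (c • z) ≤ max 1 |c| * g ν z := by
  unfold g
  rw [← integral_const_mul]
  refine integral_mono (integrable_tr ν _ (measurable_mulVec_left _))
    ((integrable_tr ν _ (measurable_mulVec_left z)).const_mul _) fun m => ?_
  simp only [Matrix.mulVec_smul]
  exact tr_smul _ _

theorem measurable_g : Measurable (g ν) := by
  unfold g
  have h : StronglyMeasurable (fun p : (Fin n → ℝ) × M n => tr (p.2 *ᵥ p.1)) :=
    ((continuous_tr.comp (Continuous.matrix_mulVec continuous_snd continuous_fst)).measurable).stronglyMeasurable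
  exact h.integral_prod_right.measurable

/-- The subspace of vectors sent to zero in probability. -/
def E0 (ν : ℕ → Measure (M n)) [∀ t, IsProbabilityMeasure (ν t)] : Submodule ℝ (Fin n → ℝ) where
  carrier := {z | Tendsto (fun t => g (ν t) z) atTop (𝓝 0)}
  add_mem' := by
    intro z w hz hw
    have h := hz.add hw
    rw [add_zero] at h
    exact squeeze_zero (fun t => g_nonneg (ν t) _) (fun t => g_add (ν t) z w) h
  zero_mem' := by
    show Tendsto (fun t => g (ν t) 0) atTop (𝓝 0)
    simp_rw [g_zero]
    exact tendsto_const_nhds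
  smul_mem' := by
    intro c z hz
    have h := hz.const_mul (max 1 |c|)
    rw [mul_zero] at h
    exact squeeze_zero (fun t => g_nonneg (ν t) _) (fun t => g_smul (ν t) c z) h

theorem mem_E0 (ν : ℕ → Measure (M n)) [∀ t, IsProbabilityMeasure (ν t)] (z : Fin n → ℝ) :
    z ∈ E0 ν ↔ Tendsto (fun t => g (ν t) z) atTop (𝓝 0) := Iff.rfl

/-- If `z` is random and its image tends to zero in probability, then almost surely `z` is in
`E0`. -/
theorem ae_mem_E0 (ν : ℕ → Measure (M n)) [∀ t, IsProbabilityMeasure (ν t)]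
    (la : Measure (Fin n → ℝ)) [IsProbabilityMeasure la]
    (h : Tendsto (fun t => ∫ z, g (ν t) z ∂la) atTop (𝓝 0)) : ∀ᵐ z ∂la, z ∈ E0 ν := by
  obtain ⟨F, hF, hmin⟩ := WellFounded.has_min (wellFounded_lt (α := Submodule ℝ (Fin n → ℝ)))
    {F | ∀ᵐ z ∂la, z ∈ F} ⟨⊤, by simp⟩
  have hle : F ≤ E0 ν := by
    intro z0 hz0
    by_contra hcon
    rw [mem_E0] at hcon
    have h1 : ∃ δ > 0, ∃ᶠ t in atTop, δ ≤ g (ν t) z0 := by
      by_contra hno
      push Not at hno
      apply hcon
      rw [Metric.tendsto_atTop]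
      intro δ hδ
      obtain ⟨N, hN⟩ := eventually_atTop.1 (hno δ hδ)
      refine ⟨N, fun t ht => ?_⟩
      rw [Real.dist_eq, sub_zero, abs_of_nonneg (g_nonneg _ _)]
      exact hN t ht
    obtain ⟨δ, hδ, hfr⟩ := h1
    obtain ⟨φ, hφ, hφ2⟩ := extraction_of_frequently_atTop hfr
    have h2 : TendstoInMeasure la (fun k => g (ν (φ k))) atTop (fun _ => 0) := by
      refine tendstoInMeasure_of_tendsto_eLpNorm (p := 1) one_ne_zero
        (fun k => (measurable_g (ν (φ k))).aestronglyMeasurable) aestronglyMeasurable_const ?_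
      have h3 : ∀ k, eLpNorm ((fun z => g (ν (φ k)) z) - fun _ => 0) 1 la =
          ENNReal.ofReal (∫ z, g (ν (φ k)) z ∂la) := by
        intro k
        have hint : Integrable (g (ν (φ k))) la := by
          refine Integrable.of_bound (measurable_g (ν (φ k))).aestronglyMeasurable 1 ?_
          exact Eventually.of_forall fun z => by
            rw [Real.norm_eq_abs, abs_of_nonneg (g_nonneg _ _)]
            exact g_le_one _ _
        rw [eLpNorm_one_eq_lintegral_enorm, ofReal_integral_eq_lintegral_ofReal hint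
          (Eventually.of_forall fun z => g_nonneg _ _)]
        refine lintegral_congr fun z => ?_
        simp only [Pi.sub_apply, sub_zero]
        rw [Real.enorm_eq_ofReal (g_nonneg _ _)]
      have h4 := ENNReal.tendsto_ofReal (h.comp hφ.tendsto_atTop)
      rw [ENNReal.ofReal_zero] at h4
      refine h4.congr fun k => ?_
      exact (h3 k).symm
    obtain ⟨ψ, hψ, hψ2⟩ := h2.exists_seq_tendsto_ae
    let E' : Submodule ℝ (Fin n → ℝ) := E0 (fun k => ν (φ (ψ k)))
    have hE' : ∀ᵐ z ∂la, z ∈ E' := hψ2
    have hinf : F ⊓ E' = F := by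
      by_contra hne
      refine hmin (F ⊓ E') ?_ (lt_of_le_of_ne inf_le_left hne)
      filter_upwards [hF, hE'] with z h1 h2 using ⟨h1, h2⟩
    have hz1 : z0 ∈ E' := (inf_eq_left.1 hinf) hz0
    have hz2 : Tendsto (fun k => g (ν (φ (ψ k))) z0) atTop (𝓝 0) := hz1
    have := ge_of_tendsto' hz2 fun k => hφ2 (ψ k)
    linarith
  filter_upwards [hF] with z hz using hle hz

end Pool.Agent.Q211.CW
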