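import Pool.Agent.Q211.CW.Null

/-!
# The matrix representation on a finite dimensional translation invariant space of functions
-/

set_option autoImplicit false

open MeasureTheory Filter Topology Matrix

namespace Pool.Agent.Q211.CW

section rep

variable {G : Type*} [Group G]

/-- Left translation of functions. -/
def trans (x : G) : (G → ℝ) →ₗ[ℝ] (G → ℝ) := LinearMap.funLeft ℝ ℝ (fun g => x * g)

theorem trans_apply (x : G) (v : G → ℝ) (g : G) : trans x v g = v (x * g) := rfl

variable (V : Submodule ℝ (G → ℝ)) (hV : ∀ x : G, ∀ v ∈ V, trans x v ∈ V)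

/-- Left translation on `V`. -/
def T (x : G) : V →ₗ[ℝ] V := (trans x).restrict (hV x)

theorem T_apply (x : G) (v : V) (g : G) : (T V hV x v : G → ℝ) g = (v : G → ℝ) (x * g) := rfl

theorem T_mul (x y : G) : T V hV (x * y) = T V hV y ∘ₗ T V hV x := by
  ext v g
  show (v : G → ℝ) (x * y * g) = (v : G → ℝ) (x * (y * g))
  rw [mul_assoc]

theorem T_one : T V hV 1 = LinearMap.id := by
  ext v g
  show (v : G → ℝ) (1 * g) = (v : G → ℝ) g
  rw [one_mul]

variable {n : ℕ} (b : Module.Basis (Fin n) ℝ V)

/-- The matrix of left translation, transposed. -/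
noncomputable def rep (x : G) : M n := (LinearMap.toMatrix b b (T V hV x))ᵀ

/-- The evaluation vector. -/
noncomputable def ev (g : G) : Fin n → ℝ := fun i => (b i : G → ℝ) g

theorem rep_one : rep V hV b 1 = 1 := by
  unfold rep
  rw [T_one, LinearMap.toMatrix_id, Matrix.transpose_one]

theorem rep_mul (x y : G) : rep V hV b (x * y) = rep V hV b x * rep V hV b y := by
  unfold rep
  rw [T_mul, LinearMap.toMatrix_comp b b b, Matrix.transpose_mul]

theorem rep_ev (x g : G) : rep V hV b x *ᵥ ev V b g = ev V b (x * g) := by
  funext j
  have h1 := b.sum_repr (T V hV x (b j))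
  have h2 := congrArg (fun v : V => (v : G → ℝ) g) h1
  simp only [T_apply] at h2
  rw [ev, ← h2]
  simp only [Matrix.mulVec, dotProduct, rep, Matrix.transpose_apply, LinearMap.toMatrix_apply, ev]
  rw [Submodule.coe_sum, Finset.sum_apply]
  refine Finset.sum_congr rfl fun i _ => ?_
  rfl

variable [TopologicalSpace G] [IsTopologicalGroup G] (hc : ∀ v ∈ V, Continuous v)

include hc in
theorem continuous_ev : Continuous (ev V b) :=
  continuous_pi fun i => hc _ (b i).2

include hc in
theorem continuous_functional [FiniteDimensional ℝ V] (K : V →ₗ[ℝ] ℝ) (v : V) :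
    Continuous fun x : G => K (T V hV x v) := by
  let L : G → V →ₗ[ℝ] ℝ := fun g => (LinearMap.proj g) ∘ₗ V.subtype
  have hK : K ∈ Submodule.span ℝ (Set.range L) := by
    refine FiniteDimensional.mem_span_of_iInf_ker_le_ker ?_
    intro w hw
    have h1 : w = 0 := by
      ext g
      have := (Submodule.mem_iInf _).1 hw g
      exact this
    rw [h1]
    exact Submodule.zero_mem _
  induction hK using Submodule.span_induction with
  | mem K hK =>
    obtain ⟨g, rfl⟩ := hK
    have : (fun x : G => (L g) (T V hV x v)) = fun x : G => (v : G → ℝ) (x * g) := rfl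
    rw [this]
    exact (hc _ v.2).comp (continuous_id.mul continuous_const)
  | zero => exact continuous_const
  | add K K' _ _ h h' => exact h.add h'
  | smul c K _ h => exact h.const_mul c

include hc in
theorem continuous_rep [FiniteDimensional ℝ V] : Continuous (rep V hV b) := by
  refine continuous_matrix fun i j => ?_
  have : (fun x : G => rep V hV b x i j) = fun x : G => b.coord j (T V hV x (b i)) := by
    funext x
    simp only [rep, Matrix.transpose_apply, LinearMap.toMatrix_apply]
    rfl
  rw [this]
  exact continuous_functional V hV hc _ _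

end rep

end Pool.Agent.Q211.CW
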