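import Pool.Agent.Q211.CW.Rep

/-!
# Random walks and the representation
-/

set_option autoImplicit false

open MeasureTheory Filter Topology Matrix ProbabilityTheory

namespace Pool.Agent.Q211.CW

/-- The walk: `walk u t = u 0 * u 1 * ... * u (t - 1)`. -/
def walk {G : Type*} [Group G] (u : ℕ → G) (t : ℕ) : G := ((List.range t).map u).prod

theorem walk_zero {G : Type*} [Group G] (u : ℕ → G) : walk u 0 = 1 := rfl

theorem walk_succ {G : Type*} [Group G] (u : ℕ → G) (t : ℕ) :
    walk u (t + 1) = walk u t * u t := by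
  simp [walk, List.range_succ]

section

variable {G : Type*} [Group G] [TopologicalSpace G] [IsTopologicalGroup G] [MeasurableSpace G]
  [BorelSpace G] {Ω : Type*} [mΩ : MeasurableSpace Ω] {P : Measure Ω} [IsProbabilityMeasure P]
  {U : ℕ → Ω → G} (hU : ∀ t, Measurable (U t)) (hind : iIndepFun U P)
  {n : ℕ} {R : G → M n} (hR1 : R 1 = 1) (hRm : ∀ x y, R (x * y) = R x * R y)
  (hRc : Continuous R)

theorem measurable_mul_M {α : Type*} [MeasurableSpace α] {a b : α → M n} (ha : Measurable a)
    (hb : Measurable b) : Measurable fun x => a x * b x := by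
  have h : Continuous fun p : M n × M n => p.1 * p.2 :=
    Continuous.matrix_mul continuous_fst continuous_snd
  exact h.measurable.comp (ha.prodMk hb)

include hU hR1 hRm hRc in
/-- The matrix of the walk is measurable with respect to the past. -/
theorem measurable_past (t : ℕ) :
    Measurable[⨆ i ∈ {i : ℕ | i < t}, MeasurableSpace.comap (U i) inferInstance]
      (fun ω => R (walk (fun i => U i ω) t)) := by
  induction t with
  | zero =>
    have : (fun ω => R (walk (fun i => U i ω) 0)) = fun _ => (1 : M n) := by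
      funext ω
      rw [walk_zero, hR1]
    rw [this]
    exact measurable_const
  | succ t ih =>
    have : (fun ω => R (walk (fun i => U i ω) (t + 1))) =
        fun ω => R (walk (fun i => U i ω) t) * R (U t ω) := by
      funext ω
      rw [walk_succ, hRm]
    rw [this]
    have h1 : (⨆ i ∈ {i : ℕ | i < t}, MeasurableSpace.comap (U i) inferInstance) ≤
        ⨆ i ∈ {i : ℕ | i < t + 1}, MeasurableSpace.comap (U i) inferInstance :=
      biSup_mono fun i hi => lt_trans hi (Nat.lt_succ_self t)
    have h2 : MeasurableSpace.comap (U t) inferInstance ≤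
        ⨆ i ∈ {i : ℕ | i < t + 1}, MeasurableSpace.comap (U i) inferInstance :=
      le_biSup (fun i => MeasurableSpace.comap (U i) inferInstance) (Nat.lt_succ_self t)
    refine @measurable_mul_M n Ω (⨆ i ∈ {i : ℕ | i < t + 1},
      MeasurableSpace.comap (U i) inferInstance) _ _ (ih.mono h1 le_rfl) ?_
    have h3 : Measurable[MeasurableSpace.comap (U t) inferInstance] (fun ω => R (U t ω)) :=
      hRc.measurable.comp (comap_measurable (U t))
    exact h3.mono h2 le_rfl

include hU in
theorem past_le (t : ℕ) :
    (⨆ i ∈ {i : ℕ | i < t}, MeasurableSpace.comap (U i) inferInstance) ≤ mΩ :=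
  iSup₂_le fun i _ => (hU i).comap_le

include hU hR1 hRm hRc in
theorem measurable_walk (t : ℕ) : Measurable (fun ω => R (walk (fun i => U i ω) t)) :=
  (measurable_past hU hR1 hRm hRc t).mono (past_le hU t) le_rfl

include hU hind hR1 hRm hRc in
theorem indep_walk (t : ℕ) :
    IndepFun (fun ω => R (walk (fun i => U i ω) t)) (U t) P := by
  have h := indep_iSup_of_disjoint (fun i => (hU i).comap_le) hind
    (S := {i : ℕ | i < t}) (T := {t}) (by
      rw [Set.disjoint_singleton_right]
      simp)
  rw [IndepFun_iff_Indep]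
  refine indep_of_indep_of_le_left (indep_of_indep_of_le_right h ?_) ?_
  · simp
  · exact (measurable_past hU hR1 hRm hRc t).comap_le

/-- The law of the matrix of the walk. -/
noncomputable def nuR (P : Measure Ω) (U : ℕ → Ω → G) (R : G → M n) (t : ℕ) : Measure (M n) :=
  P.map (fun ω => R (walk (fun i => U i ω) t))

include hU hR1 hRm hRc in
theorem prob_nuR (t : ℕ) : IsProbabilityMeasure (nuR P U R t) :=
  Measure.isProbabilityMeasure_map (measurable_walk hU hR1 hRm hRc t).aemeasurable

include hU hR1 hRm hRc in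
theorem g_nuR (t : ℕ) (z : Fin n → ℝ) :
    g (nuR P U R t) z = ∫ ω, tr (R (walk (fun i => U i ω) t) *ᵥ z) ∂P := by
  unfold g nuR
  rw [integral_map (measurable_walk hU hR1 hRm hRc t).aemeasurable]
  exact ((continuous_tr.measurable).comp (measurable_mulVec_left z)).aestronglyMeasurable

include hU hind hR1 hRm hRc in
theorem g_fubini {μ : Measure G} (hlaw : ∀ t, P.map (U t) = μ) (d : G → Fin n → ℝ)
    (hd : Measurable d) (t : ℕ) :
    ∫ z, g (nuR P U R t) z ∂(μ.map d) =
      ∫ ω, tr (R (walk (fun i => U i ω) t) *ᵥ d (U t ω)) ∂P := by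
  have hp := prob_nuR (P := P) hU hR1 hRm hRc t
  have hW := measurable_walk hU hR1 hRm hRc t
  have hdU : Measurable (fun ω => d (U t ω)) := hd.comp (hU t)
  have hla : μ.map d = P.map (fun ω => d (U t ω)) := by
    rw [← hlaw t, Measure.map_map hd (hU t)]
    rfl
  have hpl : IsProbabilityMeasure (μ.map d) := by
    rw [hla]
    exact Measure.isProbabilityMeasure_map hdU.aemeasurable
  have hi : IndepFun (fun ω => R (walk (fun i => U i ω) t)) (fun ω => d (U t ω)) P :=
    (indep_walk hU hind hR1 hRm hRc t).comp measurable_id hd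
  have h1 : P.map (fun ω => (R (walk (fun i => U i ω) t), d (U t ω))) =
      (nuR P U R t).prod (μ.map d) := by
    rw [hla]
    exact (indepFun_iff_map_prod_eq_prod_map_map hW.aemeasurable hdU.aemeasurable).1 hi
  have h2 : ∫ ω, tr (R (walk (fun i => U i ω) t) *ᵥ d (U t ω)) ∂P =
      ∫ p : M n × (Fin n → ℝ), tr (p.1 *ᵥ p.2) ∂((nuR P U R t).prod (μ.map d)) := by
    rw [← h1, integral_map (hW.prodMk hdU).aemeasurable]
    exact measurable_tr_mulVec.aestronglyMeasurable
  rw [h2, integral_prod_symm]
  · rfl
  · exact integrable_tr _ (fun p : M n × (Fin n → ℝ) => p.1 *ᵥ p.2) continuous_mulVec.measurable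

/-- Bounded convergence for the truncated size. -/
theorem tendsto_tr {w : ℕ → Ω → Fin n → ℝ} (hw : ∀ t, Measurable (w t))
    (h : ∀ᵐ ω ∂P, Tendsto (fun t => w t ω) atTop (𝓝 0)) :
    Tendsto (fun t => ∫ ω, tr (w t ω) ∂P) atTop (𝓝 0) := by
  have h0 : ∫ _ω : Ω, tr (0 : Fin n → ℝ) ∂P = 0 := by
    simp [tr]
  rw [← h0]
  refine tendsto_integral_of_dominated_convergence (fun _ => 1)
    (fun t => (continuous_tr.measurable.comp (hw t)).aestronglyMeasurable)
    (integrable_const _) (fun t => Eventually.of_forall fun ω => ?_) ?_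
  · rw [Real.norm_eq_abs, abs_of_nonneg (tr_nonneg _)]
    exact tr_le_one _
  · filter_upwards [h] with ω hω
    exact (continuous_tr.tendsto _).comp hω

end

end Pool.Agent.Q211.CW
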